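import Pool.Agent.Helper14.GS.St

/-! # Project GS (MP_627c93_nt), module A8 -/

set_option autoImplicit false

namespace Pool.Agent.Helper41.GS

open Pool.Agent.Helper14.GS Pool.Agent.Helper10.EP Polynomial

private theorem log_A8 (m : ℕ) (hm : 1 ≤ m) :
    0 ≤ Real.log ((((m : ℕ) : ℝ) + 1) / ((m : ℕ) : ℝ)) ∧
    Real.log ((((m : ℕ) : ℝ) + 1) / ((m : ℕ) : ℝ)) ≤ 1 ∧
    Real.log ((((m : ℕ) : ℝ) + 1) / ((m : ℕ) : ℝ)) = Real.log ((m + 1 : ℕ) : ℝ) - Real.log (m : ℝ) := by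
  have h1 : (1 : ℝ) ≤ (m : ℝ) := by exact_mod_cast hm
  have h0 : (0 : ℝ) < (m : ℝ) := by linarith
  have h2 : ((m : ℝ) + 1) / (m : ℝ) = 1 + 1 / (m : ℝ) := by field_simp
  have h3 : 1 / (m : ℝ) ≤ 1 := by
    rw [div_le_one h0]
    exact h1
  have h4 : 0 < 1 / (m : ℝ) := by positivity
  refine ⟨?_, ?_, ?_⟩
  · rw [h2]
    exact Real.log_nonneg (by linarith)
  · rw [h2]
    have := Real.log_le_sub_one_of_pos (show 0 < 1 + 1 / (m : ℝ) by linarith)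
    linarith
  · rw [Real.log_div (by linarith) (by linarith)]
    push_cast
    ring

private theorem one_A8 (h5 : StA5) (k n C M : ℕ) (hk : 1 ≤ k) (hn : 2 * k + 2 ≤ n) (hC : 1 ≤ C)
    (W : ℝ) (hW : W = 2 * (C : ℝ) ^ (M + 1) * (2 * n) ^ (2 * M)) (Δ : ℕ) (hΔ : Δ ≤ C ^ (M + 1))
    (D : ℕ) (hD : D ≤ M) (p : ℤ) (u : ℕ → ℤ)
    (hp : (Δ : ℝ) * padeI k n D = p +
      ∑ j ∈ Finset.range k, (u j : ℝ) * Real.log ((((n + j : ℕ) : ℝ) + 1) / ((n + j : ℕ) : ℝ)))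
    (hu : (∑ j ∈ Finset.range k, |u j|) ≤ (C : ℤ) ^ (M + 1) * ((n : ℤ) + k + 1) ^ (2 * D)) :
    (∑ j ∈ Finset.range k, |(u j : ℝ)|) ≤ W ∧ |(p : ℝ)| ≤ W := by
  have hn1 : 1 ≤ n := by omega
  have hnR : (1 : ℝ) ≤ (n : ℝ) := by exact_mod_cast hn1
  have hCR : (1 : ℝ) ≤ (C : ℝ) := by exact_mod_cast hC
  have hC1 : (1 : ℝ) ≤ (C : ℝ) ^ (M + 1) := one_le_pow₀ hCR
  have hn2 : (1 : ℝ) ≤ (2 * (n : ℝ)) ^ (2 * M) := one_le_pow₀ (by linarith)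
  have hu1 : (∑ j ∈ Finset.range k, |(u j : ℝ)|) ≤ (C : ℝ) ^ (M + 1) * ((n : ℝ) + k + 1) ^ (2 * D) := by
    have h1 : ((∑ j ∈ Finset.range k, |u j| : ℤ) : ℝ) ≤
        (((C : ℤ) ^ (M + 1) * ((n : ℤ) + k + 1) ^ (2 * D) : ℤ) : ℝ) := by exact_mod_cast hu
    push_cast at h1
    exact h1
  have hb : ((n : ℝ) + k + 1) ^ (2 * D) ≤ (2 * (n : ℝ)) ^ (2 * M) := by
    have h1 : ((n : ℝ) + k + 1) ≤ 2 * (n : ℝ) := by
      have : n + k + 1 ≤ 2 * n := by omega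
      exact_mod_cast this
    calc ((n : ℝ) + k + 1) ^ (2 * D) ≤ (2 * (n : ℝ)) ^ (2 * D) :=
          pow_le_pow_left₀ (by positivity) h1 _
      _ ≤ (2 * (n : ℝ)) ^ (2 * M) := pow_le_pow_right₀ (by linarith) (by omega)
  have hu2 : (∑ j ∈ Finset.range k, |(u j : ℝ)|) ≤ (C : ℝ) ^ (M + 1) * (2 * (n : ℝ)) ^ (2 * M) :=
    hu1.trans (mul_le_mul_of_nonneg_left hb (by positivity))
  have hW2 : W = 2 * ((C : ℝ) ^ (M + 1) * (2 * (n : ℝ)) ^ (2 * M)) := by rw [hW]; ring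
  have hX : 0 < (C : ℝ) ^ (M + 1) * (2 * (n : ℝ)) ^ (2 * M) := by positivity
  refine ⟨by linarith, ?_⟩
  obtain ⟨q1, q2, _, _⟩ := h5 k n D hk hn1
  have q3 : padeI k n D ≤ 1 := by
    refine q2.trans (inv_le_one_of_one_le₀ ?_)
    exact one_le_pow₀ hnR
  have hΔR : (Δ : ℝ) ≤ (C : ℝ) ^ (M + 1) := by exact_mod_cast hΔ
  have hs : |∑ j ∈ Finset.range k, (u j : ℝ) *
      Real.log ((((n + j : ℕ) : ℝ) + 1) / ((n + j : ℕ) : ℝ))| ≤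
      ∑ j ∈ Finset.range k, |(u j : ℝ)| := by
    refine (Finset.abs_sum_le_sum_abs _ _).trans (Finset.sum_le_sum fun j _ => ?_)
    obtain ⟨l1, l2, _⟩ := log_A8 (n + j) (by omega)
    rw [abs_mul, abs_of_nonneg l1]
    exact mul_le_of_le_one_right (abs_nonneg _) l2
  have hp2 : (p : ℝ) = (Δ : ℝ) * padeI k n D - ∑ j ∈ Finset.range k, (u j : ℝ) *
      Real.log ((((n + j : ℕ) : ℝ) + 1) / ((n + j : ℕ) : ℝ)) := by linarith
  have hp3 : 0 ≤ (Δ : ℝ) * padeI k n D := mul_nonneg (Nat.cast_nonneg _) q1.le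
  have hp4 : (Δ : ℝ) * padeI k n D ≤ (C : ℝ) ^ (M + 1) := by
    calc (Δ : ℝ) * padeI k n D ≤ (Δ : ℝ) * 1 := mul_le_mul_of_nonneg_left q3 (Nat.cast_nonneg _)
      _ ≤ _ := by rw [mul_one]; exact hΔR
  have hp5 : (C : ℝ) ^ (M + 1) ≤ (C : ℝ) ^ (M + 1) * (2 * (n : ℝ)) ^ (2 * M) :=
    le_mul_of_one_le_right (by positivity) hn2
  rw [hp2]
  have h6 := abs_sub ((Δ : ℝ) * padeI k n D) (∑ j ∈ Finset.range k, (u j : ℝ) *
      Real.log ((((n + j : ℕ) : ℝ) + 1) / ((n + j : ℕ) : ℝ)))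
  rw [abs_of_nonneg hp3] at h6
  linarith

/-- Some `θ log (n + j)` is far from the integers. -/
theorem A8 (h4 : StA4) (h5 : StA5) (h6 : StA6) (h7 : StA7) : StA8 := by
  intro k hk
  obtain ⟨C, hC, H4⟩ := h4 k (by omega)
  obtain ⟨n, hn, θ₀, hθ₀, H7⟩ := h7 k C hk hC
  refine ⟨n, by omega, θ₀, hθ₀, fun θ hθ N => ?_⟩
  by_contra hcon
  push Not at hcon
  obtain ⟨t, ht, W, hW, ha, hb, hc, hd⟩ := H7 θ hθ
  obtain ⟨Δ, hΔ1, hΔ2, H⟩ := H4 n (by omega) ((k + 4) * t)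
  have hkt : k * t ≤ (k + 4) * t := Nat.mul_le_mul_right _ (by omega)
  obtain ⟨p₁, u₁, hp1, hu1⟩ := H (k * t) hkt
  obtain ⟨p₂, u₂, hp2, hu2⟩ := H ((k + 4) * t) le_rfl
  obtain ⟨s1, b1⟩ := one_A8 h5 k n C ((k + 4) * t) (by omega) hn hC W hW Δ hΔ2 (k * t) hkt p₁ u₁ hp1 hu1
  obtain ⟨s2, b2⟩ := one_A8 h5 k n C ((k + 4) * t) (by omega) hn hC W hW Δ hΔ2 _ le_rfl p₂ u₂ hp2 hu2
  obtain ⟨q1, q2, _, q4⟩ := h5 k n (k * t) (by omega) (by omega)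
  obtain ⟨r1, _, r3, _⟩ := h5 k n ((k + 4) * t) (by omega) (by omega)
  have hq := q4 ((k + 4) * t) hkt
  have hθ0 : 0 < θ := by linarith
  have hΔR : (1 : ℝ) ≤ (Δ : ℝ) := by exact_mod_cast hΔ1
  have hΔR2 : (Δ : ℝ) ≤ (C : ℝ) ^ ((k + 4) * t + 1) := by exact_mod_cast hΔ2
  have hn1 : (1 : ℝ) ≤ (n : ℝ) := by
    have : 1 ≤ n := by omega
    exact_mod_cast this
  have hCR : (1 : ℝ) ≤ (C : ℝ) := by exact_mod_cast hC
  have hε : 0 ≤ θ ^ (-(20 / (k : ℝ))) := Real.rpow_nonneg hθ0.le _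
  have hW1 : 1 ≤ W := by
    rw [hW]
    have h1 : (1 : ℝ) ≤ (C : ℝ) ^ ((k + 4) * t + 1) := one_le_pow₀ hCR
    have h2 : (1 : ℝ) ≤ (2 * (n : ℝ)) ^ (2 * ((k + 4) * t)) := one_le_pow₀ (by linarith)
    nlinarith
  have hexp : k * ((k + 4) * t - k * t) = 4 * k * t := by
    have : (k + 4) * t - k * t = 4 * t := by
      rw [add_mul]
      omega
    rw [this]
    ring
  rw [hexp] at hq
  have hnp : (0 : ℝ) < (n : ℝ) ^ (4 * k * t) := by positivity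
  have hI1 : 0 < (Δ : ℝ) * padeI k n (k * t) := mul_pos (by linarith) q1
  have hI2 : 0 < (Δ : ℝ) * padeI k n ((k + 4) * t) := mul_pos (by linarith) r1
  have hqq : (Δ : ℝ) * padeI k n ((k + 4) * t) ≤
      ((n : ℝ) ^ (4 * k * t))⁻¹ * ((Δ : ℝ) * padeI k n (k * t)) := by
    calc (Δ : ℝ) * padeI k n ((k + 4) * t) ≤
        (Δ : ℝ) * (((n : ℝ) ^ (4 * k * t))⁻¹ * padeI k n (k * t)) :=
          mul_le_mul_of_nonneg_left hq (by linarith)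
      _ = _ := by ring
  refine h6 k (fun j => Real.log ((((n + j : ℕ) : ℝ) + 1) / ((n + j : ℕ) : ℝ)))
    (fun j => N (j + 1) - N j) θ (θ ^ (-(20 / (k : ℝ)))) W ((Δ : ℝ) * padeI k n (k * t))
    ((Δ : ℝ) * padeI k n ((k + 4) * t)) p₁ p₂ u₁ u₂ hθ0 hε hW1 hI1 hI2 ?_ hp1 hp2 ?_ s1 s2 b1 b2
    ?_ hb ?_ ?_
  · refine hqq.trans ?_
    refine mul_le_of_le_one_left hI1.le (inv_le_one_of_one_le₀ ?_)
    exact one_le_pow₀ hn1
  · intro j hj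
    have e1 := hcon j hj.le
    have e2 := hcon (j + 1) hj
    obtain ⟨_, _, e3⟩ := log_A8 (n + j) (by omega)
    rw [e3]
    have e4 : (n + (j + 1) : ℕ) = n + j + 1 := by omega
    rw [e4] at e2
    rw [abs_lt] at e1 e2
    rw [abs_le]
    push_cast at e1 e2 ⊢
    constructor <;> nlinarith
  · have h1 : (Δ : ℝ) * padeI k n (k * t) ≤
        (C : ℝ) ^ ((k + 4) * t + 1) * ((n : ℝ) ^ (k * (k * t + 1)))⁻¹ :=
      mul_le_mul hΔR2 q2 q1.le (by positivity)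
    have h2 : W * θ * ((Δ : ℝ) * padeI k n (k * t)) ≤
        W * θ * ((C : ℝ) ^ ((k + 4) * t + 1) * ((n : ℝ) ^ (k * (k * t + 1)))⁻¹) :=
      mul_le_mul_of_nonneg_left h1 (by positivity)
    refine lt_of_le_of_lt h2 ?_
    have h3 : (0 : ℝ) < (n : ℝ) ^ (k * (k * t + 1)) := by positivity
    have h4 : W * θ * ((C : ℝ) ^ ((k + 4) * t + 1) * ((n : ℝ) ^ (k * (k * t + 1)))⁻¹) =
        (W * θ * (C : ℝ) ^ ((k + 4) * t + 1)) / (n : ℝ) ^ (k * (k * t + 1)) := by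
      rw [div_eq_mul_inv]; ring
    rw [h4, div_lt_iff₀ h3]
    linarith
  · have h1 : 0 < (8 : ℝ) ^ ((k + 4) * t + 1) * (2 * (n : ℝ)) ^ (k * ((k + 4) * t + 1)) := by
      positivity
    have h2 : (8 : ℝ) ^ ((k + 4) * t + 1) * ((n : ℝ) + k) ^ (k * ((k + 4) * t + 1)) ≤
        (8 : ℝ) ^ ((k + 4) * t + 1) * (2 * (n : ℝ)) ^ (k * ((k + 4) * t + 1)) := by
      refine mul_le_mul_of_nonneg_left (pow_le_pow_left₀ (by positivity) ?_ _) (by positivity)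
      have : n + k ≤ 2 * n := by omega
      exact_mod_cast this
    have h3 : ((8 : ℝ) ^ ((k + 4) * t + 1) * (2 * (n : ℝ)) ^ (k * ((k + 4) * t + 1)))⁻¹ ≤
        padeI k n ((k + 4) * t) :=
      (inv_anti₀ (by positivity) h2).trans r3
    have h4 : 4 * θ ^ (-(20 / (k : ℝ))) * W ≤
        θ * ((8 : ℝ) ^ ((k + 4) * t + 1) * (2 * (n : ℝ)) ^ (k * ((k + 4) * t + 1)))⁻¹ := by
      rw [← div_eq_mul_inv, le_div_iff₀ h1]
      linarith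
    refine h4.trans (mul_le_mul_of_nonneg_left ?_ hθ0.le)
    refine h3.trans ?_
    exact le_mul_of_one_le_left r1.le hΔR
  · have h1 : 3 * W * ((Δ : ℝ) * padeI k n ((k + 4) * t)) ≤
        3 * W * (((n : ℝ) ^ (4 * k * t))⁻¹ * ((Δ : ℝ) * padeI k n (k * t))) :=
      mul_le_mul_of_nonneg_left hqq (by positivity)
    refine lt_of_le_of_lt h1 ?_
    have h2 : 3 * W * (((n : ℝ) ^ (4 * k * t))⁻¹ * ((Δ : ℝ) * padeI k n (k * t))) =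
        (3 * W / (n : ℝ) ^ (4 * k * t)) * ((Δ : ℝ) * padeI k n (k * t)) := by
      rw [div_eq_mul_inv]; ring
    rw [h2]
    refine mul_lt_of_lt_one_left hI1 ?_
    rw [div_lt_one hnp]
    exact hd

end Pool.Agent.Helper41.GS
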