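import Pool.Agent.Helper79.GS.St4

/-! # Project GS, module REC: recursion with loops in polynomial space -/

set_option autoImplicit false

namespace Pool.Agent.Helper41.GS

open Pool.Agent.Helper79.GS Pool.Agent.Helper73.DC

/-- `Ev` is monotone in the depth and in the time. -/
private theorem evMono {fin : ℕ → Prop} {out cal : ℕ → ℕ} {nxt : ℕ → ℕ → ℕ} {d t f v : ℕ}
    (h : Ev fin out cal nxt d t f v) : ∀ d' t' : ℕ, d ≤ d' → t ≤ t' →
    Ev fin out cal nxt d' t' f v := by
  induction h with
  | ret d t f hf ht =>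
    intro d' t' _ h2
    exact Ev.ret d' t' f hf (ht.trans h2)
  | call d t1 t2 f u v hf _ _ ih1 ih2 =>
    intro d' t' h1 h2
    obtain ⟨e, rfl⟩ : ∃ e, d' = e + 1 := ⟨d' - 1, by omega⟩
    obtain ⟨s, rfl⟩ : ∃ s, t' = t1 + s + 2 := ⟨t' - t1 - 2, by omega⟩
    exact Ev.call e t1 s f u v hf (ih1 e t1 (by omega) le_rfl) (ih2 (e + 1) s (by omega) (by omega))

/-- The accumulator. -/
private def acc (ini : ℕ → ℕ) (del : ℕ → ℕ → ℕ → ℕ) (stp : ℕ → ℕ → ℕ → ℕ → ℕ) (Val : ℕ → ℕ)
    (z : ℕ) : ℕ → ℕ := fun k => Nat.rec (ini z) (fun j a => stp z j a (Val (del z j a))) k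

private theorem accLt (N : ℕ) (ini len : ℕ → ℕ) (del : ℕ → ℕ → ℕ → ℕ)
    (stp : ℕ → ℕ → ℕ → ℕ → ℕ) (out : ℕ → ℕ → ℕ) (Ok : ℕ → Prop) (Val rk : ℕ → ℕ)
    (h : ∀ z, Ok z → ini z < N ∧
      (∀ j < len z, ∀ a < N, Ok (del z j a) ∧ rk (del z j a) < rk z ∧ ∀ x < N, stp z j a x < N) ∧
      (∀ a < N, out z a < N) ∧ Val z = out z (acc ini del stp Val z (len z))) :
    ∀ r z, Ok z → rk z ≤ r → Val z < N ∧ ∀ j ≤ len z, acc ini del stp Val z j < N := by
  intro r
  induction r with
  | zero =>
    intro z hz hr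
    obtain ⟨h1, h2, h3, h4⟩ := h z hz
    have h5 : len z = 0 := by
      rcases Nat.eq_zero_or_pos (len z) with h0 | h0
      · exact h0
      · have := (h2 0 h0 (ini z) h1).2.1
        omega
    have h6 : ∀ j ≤ len z, acc ini del stp Val z j < N := by
      intro j hj
      have : j = 0 := by omega
      subst this
      exact h1
    refine ⟨?_, h6⟩
    rw [h4]
    exact h3 _ (h6 _ le_rfl)
  | succ r ih =>
    intro z hz hr
    obtain ⟨h1, h2, h3, h4⟩ := h z hz
    have h6 : ∀ j ≤ len z, acc ini del stp Val z j < N := by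
      intro j
      induction j with
      | zero => exact fun _ => h1
      | succ j ihj =>
        intro hj
        have h7 := ihj (by omega)
        obtain ⟨g1, g2, g3⟩ := h2 j (by omega) _ h7
        exact g3 _ (ih _ g1 (by omega)).1
    refine ⟨?_, h6⟩
    rw [h4]
    exact h3 _ (h6 _ le_rfl)

private theorem evMain (N M : ℕ) (hN : 2 ≤ N) (hM : N ^ 3 ≤ M) (ini len : ℕ → ℕ)
    (del : ℕ → ℕ → ℕ → ℕ) (stp : ℕ → ℕ → ℕ → ℕ → ℕ) (out : ℕ → ℕ → ℕ) (Ok : ℕ → Prop)
    (Val rk : ℕ → ℕ)
    (h : ∀ z, Ok z → ini z < N ∧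
      (∀ j < len z, ∀ a < N, Ok (del z j a) ∧ rk (del z j a) < rk z ∧ ∀ x < N, stp z j a x < N) ∧
      (∀ a < N, out z a < N) ∧ Val z = out z (acc ini del stp Val z (len z)))
    (hzN : ∀ z, Ok z → z < N) (hlen : ∀ z, Ok z → len z < N)
    (fin : ℕ → Prop) (out' cal : ℕ → ℕ) (nxt : ℕ → ℕ → ℕ)
    (h1 : ∀ z < N, ∀ j < N, ∀ a < N, (fin (z + N * j + N * N * a) ↔ ¬ j < len z))
    (h2 : ∀ z < N, ∀ j < N, ∀ a < N, out' (z + N * j + N * N * a) = min (out z a) (M - 1))
    (h3 : ∀ z < N, ∀ j < N, ∀ a < N, cal (z + N * j + N * N * a) =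
      min (del z j a + N * N * ini (del z j a)) (M - 1))
    (h4 : ∀ z < N, ∀ j < N, ∀ a < N, ∀ u, nxt (z + N * j + N * N * a) u =
      min (z + N * (j + 1) + N * N * stp z j a u) (M - 1)) :
    ∀ r z, Ok z → rk z ≤ r →
      Ev fin out' cal nxt (r + 1) ((3 * N) ^ (r + 1)) (z + N * N * ini z) (Val z) := by
  have hfr : ∀ z < N, ∀ j < N, ∀ a < N, z + N * j + N * N * a ≤ M - 1 := by
    intro z hz j hj a ha
    have e1 : N * j ≤ N * (N - 1) := Nat.mul_le_mul_left _ (by omega)
    have e2 : N * N * a ≤ N * N * (N - 1) := Nat.mul_le_mul_left _ (by omega)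
    obtain ⟨n, rfl⟩ : ∃ n, N = n + 1 := ⟨N - 1, by omega⟩
    simp only [Nat.add_sub_cancel] at e1 e2
    have e3 : n + (n + 1) * n + (n + 1) * (n + 1) * n + 1 = (n + 1) ^ 3 := by ring
    omega
  have hNM : N ≤ M - 1 := by
    have e1 := hfr 0 (by omega) 1 (by omega) 0 (by omega)
    omega
  intro r
  induction r with
  | zero =>
    intro z hz hr
    obtain ⟨g1, g2, g3, g4⟩ := h z hz
    have hl := accLt N ini len del stp out Ok Val rk h _ z hz le_rfl
    have h5 : len z = 0 := by
      rcases Nat.eq_zero_or_pos (len z) with h0 | h0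
      · exact h0
      · have := (g2 0 h0 (ini z) g1).2.1
        omega
    have e0 : z + N * N * ini z = z + N * 0 + N * N * ini z := by ring
    have hz' := hzN z hz
    have e1 : Val z = out' (z + N * N * ini z) := by
      rw [e0, h2 z hz' 0 (by omega) _ g1, min_eq_left ((g3 _ g1).le.trans hNM), g4, h5]
      rfl
    rw [e1]
    refine Ev.ret _ _ _ ?_ (Nat.one_le_pow _ _ (by omega))
    rw [e0, h1 z hz' 0 (by omega) _ g1]
    omega
  | succ r ih =>
    intro z hz hr
    obtain ⟨g1, g2, g3, g4⟩ := h z hz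
    have hl := accLt N ini len del stp out Ok Val rk h _ z hz le_rfl
    have hz' := hzN z hz
    have hlz := hlen z hz
    have key : ∀ k ≤ len z, Ev fin out' cal nxt (r + 1 + 1) (k * ((3 * N) ^ (r + 1) + 2) + 1)
        (z + N * (len z - k) + N * N * acc ini del stp Val z (len z - k)) (Val z) := by
      intro k
      induction k with
      | zero =>
        intro _
        rw [Nat.sub_zero]
        have e1 : Val z = out' (z + N * len z + N * N * acc ini del stp Val z (len z)) := by
          rw [h2 z hz' _ hlz _ (hl.2 _ le_rfl), min_eq_left ((g3 _ (hl.2 _ le_rfl)).le.trans hNM)]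
          exact g4
        rw [e1]
        refine Ev.ret _ _ _ ?_ (by omega)
        rw [h1 z hz' _ hlz _ (hl.2 _ le_rfl)]
        omega
      | succ k ihk =>
        intro hk
        obtain ⟨j, hj⟩ : ∃ j, j = len z - (k + 1) := ⟨_, rfl⟩
        have hj1 : len z - k = j + 1 := by omega
        have hjl : j < len z := by omega
        have ih2 := ihk (by omega)
        rw [hj1] at ih2
        rw [← hj]
        have ha := hl.2 j hjl.le
        have ha1 := hl.2 (j + 1) (by omega)
        obtain ⟨f1, f2, f3⟩ := g2 j hjl _ ha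
        have hz2 := hzN _ f1
        obtain ⟨gi, _, _, _⟩ := h _ f1
        have hV := (accLt N ini len del stp out Ok Val rk h _ _ f1 le_rfl).1
        have e1 : cal (z + N * j + N * N * acc ini del stp Val z j) =
            del z j (acc ini del stp Val z j) +
              N * N * ini (del z j (acc ini del stp Val z j)) := by
          rw [h3 z hz' j (by omega) _ ha]
          apply min_eq_left
          have := hfr _ hz2 0 (by omega) _ gi
          omega
        have e2 : nxt (z + N * j + N * N * acc ini del stp Val z j)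
            (Val (del z j (acc ini del stp Val z j))) =
            z + N * (j + 1) + N * N * acc ini del stp Val z (j + 1) := by
          rw [h4 z hz' j (by omega) _ ha]
          exact min_eq_left (hfr z hz' (j + 1) (by omega) _ ha1)
        have e3 : (k + 1) * ((3 * N) ^ (r + 1) + 2) + 1 =
            (3 * N) ^ (r + 1) + (k * ((3 * N) ^ (r + 1) + 2) + 1) + 2 := by ring
        rw [e3]
        refine Ev.call (r + 1) _ _ _ (Val (del z j (acc ini del stp Val z j))) _ ?_ ?_ ?_
        · rw [h1 z hz' j (by omega) _ ha]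
          omega
        · rw [e1]
          exact ih _ f1 (by omega)
        · rw [e2]
          exact ih2
    have k1 := key (len z) le_rfl
    rw [Nat.sub_self, mul_zero, add_zero] at k1
    refine evMono k1 _ _ le_rfl ?_
    have hT : 1 ≤ (3 * N) ^ (r + 1) := Nat.one_le_pow _ _ (by omega)
    have hP : (3 * N) ^ (r + 1 + 1) = (3 * N) ^ (r + 1) * (3 * N) := pow_succ _ _
    rw [hP]
    clear hP k1 key
    generalize (3 * N) ^ (r + 1) = T at hT ⊢
    have e1 : len z * (T + 2) ≤ (N - 1) * (T + 2) := Nat.mul_le_mul_right _ (by omega)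
    obtain ⟨n, rfl⟩ : ∃ n, N = n + 1 := ⟨N - 1, by omega⟩
    rw [Nat.add_sub_cancel] at e1
    have e2 : n * (T + 2) + 1 ≤ T * (3 * (n + 1)) := by nlinarith
    omega

section
variable {α : Type} [Fintype α]

/-- Contexts all of whose entries are E2. -/
private def Cx (κ : List α → (ℕ → ℕ) → (ℕ → ℕ)) : Prop := ∀ i, E2 (fun w v => κ w v i)

private theorem cx0 : Cx (α := α) (fun _ _ => zc) := fun _ => e_con 0

private theorem cxs {F : VF α} {κ : List α → (ℕ → ℕ) → (ℕ → ℕ)} (hF : E2 F) (hκ : Cx κ) :
    Cx (fun w v => scons (F w v) (κ w v)) := by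
  intro i
  cases i with
  | zero => exact hF
  | succ i => exact hκ i

private theorem cxE {F : VF α} {κ : List α → (ℕ → ℕ) → (ℕ → ℕ)} (hF : E2 F) (hκ : Cx κ) :
    E2 (fun w v => F w (κ w v)) := e_subst hF (σ := fun i w v => κ w v i) hκ

/-- The number `NN c w`, computed from a larger number in entry `k` of the context. -/
private def NF (c k : ℕ) : VF α := fun w v => pw (v k) (w.length + 2) ((w.length + 2) ^ c)

private theorem eNF (c k : ℕ) : E2 (α := α) (NF c k) :=
  e_pw (e_get k) (e_add e_len (e_con 2)) (e_powc (e_add e_len (e_con 2)) c)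

omit [Fintype α] in
private theorem NFeq (c k : ℕ) (w : List α) (v : ℕ → ℕ) (h : NN c w ≤ v k) :
    NF c k w v = NN c w := by
  unfold NF pw NN
  unfold NN at h
  exact min_eq_left (by omega)

private def zF (c k : ℕ) : VF α := fun w v => v 0 % NF c k w v
private def jF (c k : ℕ) : VF α := fun w v => v 0 / NF c k w v % NF c k w v
private def aF (c k : ℕ) : VF α := fun w v => v 0 / (NF c k w v * NF c k w v) % NF c k w v

private theorem ezF (c k : ℕ) : E2 (α := α) (zF c k) := e_mod (e_get 0) (eNF c k)
private theorem ejF (c k : ℕ) : E2 (α := α) (jF c k) :=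
  e_mod (e_div (e_get 0) (eNF c k)) (eNF c k)
private theorem eaF (c k : ℕ) : E2 (α := α) (aF c k) :=
  e_mod (e_div (e_get 0) (e_mul (eNF c k) (eNF c k))) (eNF c k)

private theorem dec (N z j a : ℕ) (hz : z < N) (hj : j < N) (ha : a < N) :
    (z + N * j + N * N * a) % N = z ∧ (z + N * j + N * N * a) / N % N = j ∧
    (z + N * j + N * N * a) / (N * N) % N = a := by
  have hN : 0 < N := by omega
  have e1 : z + N * j + N * N * a = z + N * (j + N * a) := by ring
  have e2 : (z + N * j + N * N * a) / N = j + N * a := by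
    rw [e1, Nat.add_mul_div_left _ _ hN, Nat.div_eq_of_lt hz, zero_add]
  refine ⟨?_, ?_, ?_⟩
  · rw [e1, Nat.add_mul_mod_self_left, Nat.mod_eq_of_lt hz]
  · rw [e2, Nat.add_mul_mod_self_left, Nat.mod_eq_of_lt hj]
  · rw [← Nat.div_div_eq_div_mul, e2, Nat.add_mul_div_left _ _ hN, Nat.div_eq_of_lt hj, zero_add,
      Nat.mod_eq_of_lt ha]

omit [Fintype α] in
private theorem decF (c k : ℕ) (w : List α) (v : ℕ → ℕ) (h : NN c w ≤ v k) (z j a : ℕ)
    (hz : z < NN c w) (hj : j < NN c w) (ha : a < NN c w)
    (h0 : v 0 = z + NN c w * j + NN c w * NN c w * a) :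
    zF c k w v = z ∧ jF c k w v = j ∧ aF c k w v = a := by
  unfold zF jF aF
  rw [NFeq c k w v h, h0]
  exact dec _ z j a hz hj ha

end

/-- REC (recursion with loops). -/
theorem hREC (hSPC : StSPC) : StREC := by
  intro α _ ini len del stp out z0 c L Ok Val rk eini elen edel estp eout ez0 hOk hL
  have hsize : ∀ w : List α, 2 ≤ NN c w ∧ NN c w ^ 3 ≤ NN (c + 3) w := by
    intro w
    unfold NN
    have h0 : 1 ≤ (w.length + 2) ^ c := Nat.one_le_pow _ _ (by omega)
    refine ⟨?_, ?_⟩
    · calc 2 ≤ w.length + 2 := by omega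
        _ = (w.length + 2) ^ 1 := (pow_one _).symm
        _ ≤ (w.length + 2) ^ (w.length + 2) ^ c := Nat.pow_le_pow_right (by omega) h0
    · rw [← pow_mul]
      apply Nat.pow_le_pow_right (by omega)
      rw [pow_add]
      apply Nat.mul_le_mul_left
      calc 3 ≤ 2 ^ 3 := by norm_num
        _ ≤ (w.length + 2) ^ 3 := Nat.pow_le_pow_left (by omega) 3
  have hNM : ∀ w : List α, NN c w ≤ NN (c + 3) w := by
    intro w
    obtain ⟨h1, h2⟩ := hsize w
    exact (Nat.le_self_pow (by norm_num) _).trans h2
  have hM1 : ∀ w : List α, 1 ≤ NN (c + 3) w := fun w => by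
    have := hNM w
    have := (hsize w).1
    omega
  refine hSPC α
    (fun w v => ¬ jF c 1 w v < len w (scons (zF c 1 w v) (scons (NF c 1 w v) zc)))
    (fun w v => min (out w (scons (zF c 1 w v) (scons (aF c 1 w v) (scons (NF c 1 w v) zc))))
      (v 1 - 1))
    (fun w v => min (del w (scons (zF c 1 w v) (scons (jF c 1 w v) (scons (aF c 1 w v)
      (scons (NF c 1 w v) zc)))) + NF c 1 w v * NF c 1 w v *
        ini w (scons (del w (scons (zF c 1 w v) (scons (jF c 1 w v) (scons (aF c 1 w v)
          (scons (NF c 1 w v) zc))))) (scons (NF c 1 w v) zc))) (v 1 - 1))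
    (fun w v => min (zF c 2 w v + NF c 2 w v * (jF c 2 w v + 1) + NF c 2 w v * NF c 2 w v *
      stp w (scons (zF c 2 w v) (scons (jF c 2 w v) (scons (aF c 2 w v) (scons (v 1)
        (scons (NF c 2 w v) zc)))))) (v 2 - 1))
    (fun w v => min (z0 w (scons (NF c 0 w v) zc) + NF c 0 w v * NF c 0 w v *
      ini w (scons (z0 w (scons (NF c 0 w v) zc)) (scons (NF c 0 w v) zc))) (v 0 - 1))
    (c + 3) L ?_ ?_ ?_ ?_ ?_ ?_ ?_
  · exact e_not (e_lt (ejF c 1) (cxE elen (cxs (ezF c 1) (cxs (eNF c 1) cx0))))
  · exact e_min (cxE eout (cxs (ezF c 1) (cxs (eaF c 1) (cxs (eNF c 1) cx0))))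
      (e_sub (e_get 1) (e_con 1))
  · have h1 := cxE edel (cxs (ezF c 1) (cxs (ejF c 1) (cxs (eaF c 1) (cxs (eNF c 1) cx0))))
    exact e_min (e_add h1 (e_mul (e_mul (eNF c 1) (eNF c 1))
      (cxE eini (cxs h1 (cxs (eNF c 1) cx0))))) (e_sub (e_get 1) (e_con 1))
  · exact e_min (e_add (e_add (ezF c 2) (e_mul (eNF c 2) (e_add (ejF c 2) (e_con 1))))
      (e_mul (e_mul (eNF c 2) (eNF c 2)) (cxE estp (cxs (ezF c 2) (cxs (ejF c 2)
        (cxs (eaF c 2) (cxs (e_get 1) (cxs (eNF c 2) cx0)))))))) (e_sub (e_get 2) (e_con 1))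
  · have h1 := cxE ez0 (cxs (eNF c 0) cx0)
    exact e_min (e_add h1 (e_mul (e_mul (eNF c 0) (eNF c 0))
      (cxE eini (cxs h1 (cxs (eNF c 0) cx0))))) (e_sub (e_get 0) (e_con 1))
  · intro w f hf
    have hM := hM1 w
    refine ⟨fun _ => ?_, fun _ => ⟨?_, fun u _ => ?_⟩⟩
    · refine lt_of_le_of_lt (min_le_right _ _) ?_
      change NN (c + 3) w - 1 < NN (c + 3) w
      omega
    · refine lt_of_le_of_lt (min_le_right _ _) ?_
      change NN (c + 3) w - 1 < NN (c + 3) w
      omega
    · refine lt_of_le_of_lt (min_le_right _ _) ?_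
      change NN (c + 3) w - 1 < NN (c + 3) w
      omega
  · intro w
    have hM := hM1 w
    obtain ⟨hN2, hN3⟩ := hsize w
    have hNw := hNM w
    obtain ⟨hz0, hzL⟩ := hL w
    refine ⟨?_, Val w (z0 w (scons (NN c w) zc)), ?_, hzL⟩
    · refine lt_of_le_of_lt (min_le_right _ _) ?_
      change NN (c + 3) w - 1 < NN (c + 3) w
      omega
    · have hcond : ∀ z, Ok w z → ini w (scons z (scons (NN c w) zc)) < NN c w ∧
          (∀ j < len w (scons z (scons (NN c w) zc)), ∀ a < NN c w,
            Ok w (del w (scons z (scons j (scons a (scons (NN c w) zc))))) ∧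
            rk w (del w (scons z (scons j (scons a (scons (NN c w) zc))))) < rk w z ∧
            ∀ x < NN c w, stp w (scons z (scons j (scons a (scons x (scons (NN c w) zc))))) <
              NN c w) ∧
          (∀ a < NN c w, out w (scons z (scons a (scons (NN c w) zc))) < NN c w) ∧
          Val w z = out w (scons z (scons (acc (fun z => ini w (scons z (scons (NN c w) zc)))
            (fun z j a => del w (scons z (scons j (scons a (scons (NN c w) zc)))))
            (fun z j a x => stp w (scons z (scons j (scons a (scons x (scons (NN c w) zc))))))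
            (Val w) z (len w (scons z (scons (NN c w) zc)))) (scons (NN c w) zc))) := by
        intro z hz
        obtain ⟨_, _, g3, _, g5, g6, g7⟩ := hOk w z hz
        exact ⟨g3, g5, g6, g7⟩
      obtain ⟨gz, gr, gi, _⟩ := hOk w _ hz0
      have hev := evMain (NN c w) (NN (c + 3) w) hN2 hN3
        (fun z => ini w (scons z (scons (NN c w) zc)))
        (fun z => len w (scons z (scons (NN c w) zc)))
        (fun z j a => del w (scons z (scons j (scons a (scons (NN c w) zc)))))
        (fun z j a x => stp w (scons z (scons j (scons a (scons x (scons (NN c w) zc))))))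
        (fun z a => out w (scons z (scons a (scons (NN c w) zc)))) (Ok w) (Val w) (rk w) hcond
        (fun z hz => (hOk w z hz).1) (fun z hz => (hOk w z hz).2.2.2.1)
        (fun f => ¬ jF c 1 w (scons f (scons (NN (c + 3) w) zc)) <
          len w (scons (zF c 1 w (scons f (scons (NN (c + 3) w) zc)))
            (scons (NF c 1 w (scons f (scons (NN (c + 3) w) zc))) zc)))
        (fun f => min (out w (scons (zF c 1 w (scons f (scons (NN (c + 3) w) zc)))
          (scons (aF c 1 w (scons f (scons (NN (c + 3) w) zc)))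
            (scons (NF c 1 w (scons f (scons (NN (c + 3) w) zc))) zc)))) (NN (c + 3) w - 1))
        (fun f => min (del w (scons (zF c 1 w (scons f (scons (NN (c + 3) w) zc)))
          (scons (jF c 1 w (scons f (scons (NN (c + 3) w) zc)))
          (scons (aF c 1 w (scons f (scons (NN (c + 3) w) zc)))
          (scons (NF c 1 w (scons f (scons (NN (c + 3) w) zc))) zc)))) +
            NF c 1 w (scons f (scons (NN (c + 3) w) zc)) *
            NF c 1 w (scons f (scons (NN (c + 3) w) zc)) *
            ini w (scons (del w (scons (zF c 1 w (scons f (scons (NN (c + 3) w) zc)))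
              (scons (jF c 1 w (scons f (scons (NN (c + 3) w) zc)))
              (scons (aF c 1 w (scons f (scons (NN (c + 3) w) zc)))
              (scons (NF c 1 w (scons f (scons (NN (c + 3) w) zc))) zc)))))
              (scons (NF c 1 w (scons f (scons (NN (c + 3) w) zc))) zc))) (NN (c + 3) w - 1))
        (fun f u => min (zF c 2 w (scons f (scons u (scons (NN (c + 3) w) zc))) +
          NF c 2 w (scons f (scons u (scons (NN (c + 3) w) zc))) *
            (jF c 2 w (scons f (scons u (scons (NN (c + 3) w) zc))) + 1) +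
          NF c 2 w (scons f (scons u (scons (NN (c + 3) w) zc))) *
            NF c 2 w (scons f (scons u (scons (NN (c + 3) w) zc))) *
            stp w (scons (zF c 2 w (scons f (scons u (scons (NN (c + 3) w) zc))))
              (scons (jF c 2 w (scons f (scons u (scons (NN (c + 3) w) zc))))
              (scons (aF c 2 w (scons f (scons u (scons (NN (c + 3) w) zc))))
              (scons u (scons (NF c 2 w (scons f (scons u (scons (NN (c + 3) w) zc)))) zc))))))
          (NN (c + 3) w - 1))
        (fun z hz j hj a ha => by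
          obtain ⟨d1, d2, d3⟩ := decF c 1 w (scons (z + NN c w * j + NN c w * NN c w * a)
            (scons (NN (c + 3) w) zc)) hNw z j a hz hj ha rfl
          have d4 := NFeq c 1 w (scons (z + NN c w * j + NN c w * NN c w * a)
            (scons (NN (c + 3) w) zc)) hNw
          simp only [d1, d2, d4])
        (fun z hz j hj a ha => by
          obtain ⟨d1, d2, d3⟩ := decF c 1 w (scons (z + NN c w * j + NN c w * NN c w * a)
            (scons (NN (c + 3) w) zc)) hNw z j a hz hj ha rfl
          have d4 := NFeq c 1 w (scons (z + NN c w * j + NN c w * NN c w * a)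
            (scons (NN (c + 3) w) zc)) hNw
          simp only [d1, d3, d4])
        (fun z hz j hj a ha => by
          obtain ⟨d1, d2, d3⟩ := decF c 1 w (scons (z + NN c w * j + NN c w * NN c w * a)
            (scons (NN (c + 3) w) zc)) hNw z j a hz hj ha rfl
          have d4 := NFeq c 1 w (scons (z + NN c w * j + NN c w * NN c w * a)
            (scons (NN (c + 3) w) zc)) hNw
          simp only [d1, d2, d3, d4])
        (fun z hz j hj a ha u => by
          obtain ⟨d1, d2, d3⟩ := decF c 2 w (scons (z + NN c w * j + NN c w * NN c w * a)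
            (scons u (scons (NN (c + 3) w) zc))) hNw z j a hz hj ha rfl
          have d4 := NFeq c 2 w (scons (z + NN c w * j + NN c w * NN c w * a)
            (scons u (scons (NN (c + 3) w) zc))) hNw
          simp only [d1, d2, d3, d4])
        (rk w (z0 w (scons (NN c w) zc))) (z0 w (scons (NN c w) zc)) hz0 le_rfl
      have hc1 : (w.length + 2) ^ c ≤ (w.length + 2) ^ (c + 3) :=
        Nat.pow_le_pow_right (by omega) (by omega)
      have h3N : 3 * NN c w ≤ NN (c + 3) w := by
        have e1 : 2 * 2 ≤ NN c w * NN c w := Nat.mul_le_mul hN2 hN2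
        have e2 : NN c w ^ 3 = NN c w * NN c w * NN c w := by ring
        have e3 : 2 * 2 * NN c w ≤ NN c w * NN c w * NN c w := Nat.mul_le_mul_right _ e1
        omega
      have hf0 : min (z0 w (scons (NF c 0 w (scons (NN (c + 3) w) zc)) zc) +
          NF c 0 w (scons (NN (c + 3) w) zc) * NF c 0 w (scons (NN (c + 3) w) zc) *
          ini w (scons (z0 w (scons (NF c 0 w (scons (NN (c + 3) w) zc)) zc))
            (scons (NF c 0 w (scons (NN (c + 3) w) zc)) zc))) (NN (c + 3) w - 1) =
          z0 w (scons (NN c w) zc) + NN c w * NN c w *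
            ini w (scons (z0 w (scons (NN c w) zc)) (scons (NN c w) zc)) := by
        have d4 := NFeq c 0 w (scons (NN (c + 3) w) zc) hNw
        rw [d4]
        apply min_eq_left
        generalize ini w (scons (z0 w (scons (NN c w) zc)) (scons (NN c w) zc)) = i0 at *
        generalize z0 w (scons (NN c w) zc) = z1 at *
        have e2 : NN c w ^ 3 = NN c w * NN c w * NN c w := by ring
        have e3 : NN c w * NN c w * i0 ≤ NN c w * NN c w * (NN c w - 1) :=
          Nat.mul_le_mul_left _ (by omega)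
        have e4 : NN c w * NN c w * (NN c w - 1) + NN c w * NN c w =
            NN c w * NN c w * NN c w := by
          obtain ⟨n, hn⟩ : ∃ n, NN c w = n + 1 := ⟨NN c w - 1, by omega⟩
          rw [hn, Nat.add_sub_cancel]
          ring
        have e5 : NN c w * 1 ≤ NN c w * NN c w := Nat.mul_le_mul_left _ (by omega)
        omega
      have hev2 := evMono hev ((w.length + 2) ^ (c + 3))
        (NN (c + 3) w ^ ((w.length + 2) ^ (c + 3))) (by omega) (by
          calc (3 * NN c w) ^ (rk w (z0 w (scons (NN c w) zc)) + 1)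
              ≤ NN (c + 3) w ^ (rk w (z0 w (scons (NN c w) zc)) + 1) :=
                Nat.pow_le_pow_left h3N _
            _ ≤ NN (c + 3) w ^ ((w.length + 2) ^ (c + 3)) :=
                Nat.pow_le_pow_right hM (by omega))
      rw [← hf0] at hev2
      exact hev2

end Pool.Agent.Helper41.GS
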