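import Pool.Agent.Helper79.GS.St5

/-! # Project GS, module TG2: calls of the kind 2 -/

set_option autoImplicit false

namespace Pool.Agent.Helper41.GS

open Pool.Agent.Helper79.GS
open Pool.Agent.Helper19.SK Pool.Agent.Helper73.DC Finset
open scoped Classical

private theorem b01_le (p : Prop) : b01 p ≤ 1 := by
  unfold b01
  split_ifs <;> omega

private theorem b01_one (p : Prop) : b01 p = 1 ↔ p := by
  unfold b01
  split_ifs with h
  · simp [h]
  · simp [h]

private theorem b01_zero (p : Prop) : b01 p = 0 ↔ ¬ p := by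
  unfold b01
  split_ifs with h
  · simp [h]
  · simp [h]

private theorem b01_congr {p q : Prop} (h : p ↔ q) : b01 p = b01 q := by rw [propext h]

/-- TG2 (calls of the kind 2). -/
theorem hTG2 (hBND : StBND) (hFLD : StFLD) (hARN : StARN) : StTG2 := by
  intro w r c a b u k m fl d s t x hOk
  obtain ⟨hv0, hr0, hok0, hF⟩ := hFLD w
  obtain ⟨hf, _, hval, hrk, _⟩ := hF 2 r c a b u k m fl d s t x hOk
  obtain ⟨_, _, _, hP14, hNb, _, _, _, _, _, hb1, _, _, _, _, _, _, hP16, _⟩ := hBND w
  have hN2 : 2 < NN 16 w ∧ 3 ^ (nW w * nW w) < NN 16 w := by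
    have h1 : PhN (NN 16 w) w ≤ PhN (NN 16 w) w ^ 14 := Nat.le_self_pow (by norm_num) _
    omega
  obtain ⟨z, hz⟩ : ∃ z, z = zz (NN 16 w) w 2 r c a b u k m fl d s t x := ⟨_, rfl⟩
  rw [← hz] at hf hval hrk ⊢
  obtain ⟨f0, f1, f2, _, _, f5, _⟩ := hf
  have hini : IniN (NN 16 w) w z = 0 := by
    unfold IniN
    rw [f0]
    rfl
  have hlen : LenN (NN 16 w) w z = if r = 0 then 0 else 3 ^ (nW w * nW w) := by
    unfold LenN
    rw [f0, f1, hNb]
    rfl
  have hdel : ∀ j, DelN (NN 16 w) w z j = del2' (NN 16 w) w r c u j := by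
    intro j
    unfold DelN
    rw [f0, f1, f2, f5]
    rfl
  have hstp : ∀ j a y, StpN (NN 16 w) w z j a y = stp2 (NN 16 w) w c u j a y := by
    intro j a y
    unfold StpN
    rw [f0, f2, f5]
    rfl
  have hout : ∀ a, OutN (NN 16 w) w z a = b01 (a = 1) := by
    intro a
    unfold OutN
    rw [f0]
    rfl
  have hb : ∀ p : Prop, b01 p < NN 16 w := fun p => by
    have := b01_le p
    omega
  obtain ⟨_, _, hr, hc, ha3, hb3, hu3, hk, _, hm, hfl, hd, hs, ht, hx, _⟩ := hOk
  -- the calls
  have hcall : r ≠ 0 → ∀ j < 3 ^ (nW w * nW w), OkF w 1 (r - 1) (1 - c) 0 0 j 0 0 0 0 0 0 0 := by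
    intro _ j hj
    exact ⟨le_rfl, by omega, by omega, by omega, by omega, by omega, hj, by omega,
      fun _ => by omega, by omega, by omega, by omega, by omega, by omega, by omega,
      fun h => absurd h (by omega)⟩
  refine ⟨?_, ?_, ?_, ?_, ?_⟩
  · rw [hini]
    omega
  · rw [hlen]
    split_ifs <;> omega
  · intro j hj
    rw [hlen] at hj
    split_ifs at hj with h0
    · omega
    · refine ⟨?_, ?_, ?_⟩
      · rw [hdel]
        unfold del2'
        split_ifs
        · exact (hF _ _ _ _ _ _ _ _ _ _ _ _ _ (hcall h0 j hj)).2.2.2.2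
        · exact hok0
      · rw [hdel, hrk]
        unfold del2'
        split_ifs
        · rw [(hF _ _ _ _ _ _ _ _ _ _ _ _ _ (hcall h0 j hj)).2.2.2.1]
          obtain ⟨r', rfl⟩ := Nat.exists_eq_succ_of_ne_zero h0
          simp only [rkF, Nat.succ_eq_add_one, Nat.add_sub_cancel]
          norm_num
          ring_nf
          omega
        · rw [hr0]
          simp only [rkF]
          norm_num
      · intro a' _ y _
        rw [hstp]
        exact hb _
  · intro a' _
    rw [hout]
    exact hb _
  · rw [hval, hout]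
    have hV : ValF w 2 r c a b u k m fl d s t x = b01 (EN (AW w) (HW w) r (cB c) u) := rfl
    rw [hV]
    apply b01_congr
    rcases Nat.eq_zero_or_pos r with h0 | h0
    · subst h0
      rw [hlen, if_pos rfl, hini]
      constructor
      · exact fun h => h.elim
      · intro h
        exact absurd h (by norm_num)
    · obtain ⟨r', rfl⟩ := Nat.exists_eq_succ_of_ne_zero h0.ne'
      rw [hlen, if_neg (by omega), hini]
      have key : ∀ J ≤ 3 ^ (nW w * nW w), (Nat.rec 0 (fun j a => StpN (NN 16 w) w z j a
          (ValW w (DelN (NN 16 w) w z j))) J : ℕ) =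
          b01 (∃ i < J, c2 (NN 16 w) w c u i ∧ ¬ WN (AW w) (HW w) r' (cB (1 - c)) i) := by
        intro J
        induction J with
        | zero =>
          intro _
          refine ((b01_zero _).2 ?_).symm
          rintro ⟨i, hi, _⟩
          omega
        | succ J ih =>
          intro hJ
          change StpN (NN 16 w) w z J (Nat.rec 0 (fun j a => StpN (NN 16 w) w z j a
            (ValW w (DelN (NN 16 w) w z j))) J : ℕ) (ValW w (DelN (NN 16 w) w z J)) = _
          rw [ih (by omega), hstp, hdel]
          unfold stp2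
          apply b01_congr
          rw [b01_one]
          have hstep : (c2 (NN 16 w) w c u J ∧ ValW w (del2' (NN 16 w) w (Nat.succ r') c u J) = 0) ↔
              (c2 (NN 16 w) w c u J ∧ ¬ WN (AW w) (HW w) r' (cB (1 - c)) J) := by
            refine and_congr_right fun h2 => ?_
            unfold del2'
            rw [if_pos h2, (hF _ _ _ _ _ _ _ _ _ _ _ _ _ (hcall (by omega) J (by omega))).2.2.1]
            exact b01_zero _
          rw [hstep]
          constructor
          · rintro (⟨i, hi, h⟩ | h)
            · exact ⟨i, by omega, h⟩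
            · exact ⟨J, by omega, h⟩
          · rintro ⟨i, hi, h⟩
            rcases Nat.lt_or_ge i J with h' | h'
            · exact Or.inl ⟨i, h', h⟩
            · obtain rfl : i = J := by omega
              exact Or.inr h
      rw [key _ le_rfl, b01_one]
      change Helper79.GS.ext (AW w) (HW w) (WN (AW w) (HW w) r') (cB c) u ↔ _
      unfold Helper79.GS.ext
      constructor
      · rintro ⟨b', h1, h2, h3, h4⟩
        obtain ⟨g1, g2, _, _, _, _, _, g8, _⟩ := hARN w c u b' hc
        obtain ⟨_, _, g3, _⟩ := hARN w c b' u hc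
        rw [g2] at h1
        rw [g3] at h2
        rw [g1] at h4
        exact ⟨b', (g8 h1).2, ⟨h1, h2, h3⟩, h4⟩
      · rintro ⟨b', _, ⟨h1, h2, h3⟩, h4⟩
        obtain ⟨g1, g2, _⟩ := hARN w c u b' hc
        obtain ⟨_, _, g3, _⟩ := hARN w c b' u hc
        refine ⟨b', g2.2 h1, fun h => h2 (g3.1 h), h3, ?_⟩
        rw [g1]
        exact h4

end Pool.Agent.Helper41.GS
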